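import Pool.Agent.Helper31.ST.Fin

set_option autoImplicit false

/-!
MP_ff4206_lc: the width of refutations of rootless trinomials in the sparse polynomial calculus
modulo `x^(q-1) - 1`.

`Rg K N = K[x]/(x^N - 1)`, `tri N α β c₁ c₂ c₃ = c₁ x^α + c₂ x^β + c₃`, `IsProof r s f l`: every
line of `l` is `f` or a sum of at most `r` monomial multiples of earlier lines, and has at most `s`
terms; `lam N α β` is the size of the shortest relation between the exponents modulo `N`.

(1) `lam ≤ 2 √(q-1)`;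
(2) if `r (s-1) (s-2) < min (lam, p)` then every nonzero line has at least three terms (`lam ≥ 2`);
(3) a trinomial without a root in `F_q^*` has a refutation with `r = 2`, `s = 2 lam + 3` and
`100 (lam + 1) (lam + log₂ (q-1) + 1)` lines, and one with a root has none;
(4) for every prime `p` and every `m ≥ 2` with `m² ≤ p - 1` some trinomial `x^m - x + b` has no root
in `F_p` and `lam ≥ m`.
-/

namespace Pool.Agent.Results.MP_ff4206_lc.SparseCalculusWidth

open STri

theorem result :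
    (∀ (K : Type) [Field K] [Fintype K] (p : ℕ) [Fact p.Prime] [CharP K p] (α β : ℕ)
      (c₁ c₂ c₃ : K), c₁ ≠ 0 → c₂ ≠ 0 → c₃ ≠ 0 →
      lam (Fintype.card K - 1) α β ≤ 2 * Nat.sqrt (Fintype.card K - 1) ∧
      (2 ≤ lam (Fintype.card K - 1) α β → ∀ (r s : ℕ) (l : List (Rg K (Fintype.card K - 1))),
        r * ((s - 1) * (s - 2)) < min (lam (Fintype.card K - 1) α β) p →
        IsProof r s (tri (Fintype.card K - 1) α β c₁ c₂ c₃) l →
        ∀ P ∈ l, P ≠ 0 → 3 ≤ nterms P) ∧
      ((∀ x : K, x ≠ 0 → c₁ * x ^ α + c₂ * x ^ β + c₃ ≠ 0) →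
        ∃ l : List (Rg K (Fintype.card K - 1)),
          IsProof 2 (2 * lam (Fintype.card K - 1) α β + 3)
            (tri (Fintype.card K - 1) α β c₁ c₂ c₃) l ∧ 1 ∈ l ∧
          l.length ≤ 100 * (lam (Fintype.card K - 1) α β + 1) *
            (lam (Fintype.card K - 1) α β + Nat.log 2 (Fintype.card K - 1) + 1)) ∧
      ((∃ x : K, x ≠ 0 ∧ c₁ * x ^ α + c₂ * x ^ β + c₃ = 0) →
        ∀ (r s : ℕ) (l : List (Rg K (Fintype.card K - 1))),
          IsProof r s (tri (Fintype.card K - 1) α β c₁ c₂ c₃) l → 1 ∉ l)) ∧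
    (∀ (p : ℕ) [Fact p.Prime] (m : ℕ), 2 ≤ m → m ^ 2 ≤ p - 1 →
      ∃ b : ZMod p, b ≠ 0 ∧ (∀ x : ZMod p, x ^ m - x + b ≠ 0) ∧
        m ≤ lam (p - 1) (m : ZMod (p - 1)) 1) := by
  refine ⟨?_, ?_⟩
  · intro K _ _ p _ _ α β c₁ c₂ c₃ h1 h2 h3
    have hN : Fintype.card K - 1 ≠ 0 := by
      have := Fintype.one_lt_card (α := K)
      omega
    have : NeZero (Fintype.card K - 1) := ⟨hN⟩
    refine ⟨lam_le _ _ _, ?_, ?_, ?_⟩
    · intro hlam r s l hrs hl
      exact fin_lower p h1 h2 h3 hlam hrs hl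
    · intro hroot
      exact fin_upper α β h1 h2 h3 hroot
    · rintro ⟨x, hx, hroot⟩ r s l hl
      exact fin_sound α β hx hroot hl
  · intro p _ m hm hmp
    obtain ⟨b, hb, hroot, hrel⟩ := hardExample p m hm hmp
    have hN : p - 1 ≠ 0 := by
      have : 2 ≤ p := (Fact.out : p.Prime).two_le
      omega
    have : NeZero (p - 1) := ⟨hN⟩
    refine ⟨b, hb, hroot, ?_⟩
    have := le_lam_of_not_rel hrel
    omega

end Pool.Agent.Results.MP_ff4206_lc.SparseCalculusWidth
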